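import Pool.Agent.T9h72.FP.Main

/-!
# Excellent regular rings of prime characteristic are `F`-pure regular (MP_9ff724_al, Q1)

`Fstar p e R` is `F^e_* R`, `lam p e c : R → F^e_* R` is `λ_c^e`, `IsPure` is purity and
`FPureRegular` is the notion of the problem (`Pool/Agent/T9h72/FP/Defs.lean`); `IsExcellent` is in
`Pool/Agent/T9h72/FP/Exc.lean`; `IsRegularRing` and `IsRegularLocalRing` are Mathlib's.

Idea of the proof: over a regular local ring `(B, m)` the map `λ_c^e` is pure as soon as `c` is
not in the Frobenius power `m^[p^e]`; and for a regular ring in which every `V(P)` has a nonempty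
open set of points at which `R ⧸ P` is regular one finds, by Noetherian induction, one `e` such
that `c` is not in `(q R_q)^[p^e]` for any prime `q`.
-/

set_option autoImplicit false

universe u

namespace Pool.Agent.Results.MP_9ff724_al.ExcellentRegular

open Pool.Agent.T9h72.FP

/-- **Every excellent regular ring of prime characteristic `p` is `F`-pure regular.** More
generally, let `R` be a regular ring of characteristic `p` such that for every prime `P` there is
a nonempty open set of primes at which `R ⧸ P` is regular (for instance a regular J-2 ring); then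
for every `c` outside the minimal primes `λ_c^e` is pure for all large `e`. -/
theorem result (p : ℕ) [Fact p.Prime] (R : Type u) [CommRing R] [CharP R p] [IsRegularRing R] :
    (IsExcellent R → FPureRegular p R) ∧
    ((∀ (P : Ideal R) [P.IsPrime], ∃ U : Set (PrimeSpectrum (R ⧸ P)), IsOpen U ∧ U.Nonempty ∧
        ∀ Q ∈ U, IsRegularLocalRing (Localization.AtPrime Q.asIdeal)) →
      ∀ c : R, (∀ P ∈ minimalPrimes R, c ∉ P) → ∃ N : ℕ, ∀ e ≥ N, IsPure (lam p e c)) :=
  ⟨main p R, fun hJ c hc => main_j0 p R hJ c hc⟩

end Pool.Agent.Results.MP_9ff724_al.ExcellentRegular
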